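import Pool.Agent.helper71.QX.DETa

/-!
# Project QX, row DET, part 2: kernels, sections which are constant on the cells
-/

set_option autoImplicit false

open scoped MatrixGroups ContDiff Topology UpperHalfPlane
open UpperHalfPlane MeasureTheory ProbabilityTheory Filter Set Polynomial
open Pool.Agent.QU Pool.Agent.RP

namespace Pool.Agent.QX

section kernels

variable {V : Type} [NormedAddCommGroup V] [InnerProductSpace ℂ V] {F : Set ℍ}

theorem DET_Sint {S : ℍ → ℍ → ℝ} (hS : Continuous (Function.uncurry S)) {R : ℝ}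
    (hR : ∀ z v, S z v ≠ 0 → dist z v ≤ R) {f : ℍ → V} (hf : DET_B f) (v : ℍ) :
    Integrable (fun z => S z v • f z) := by
  obtain ⟨h1, m, h2⟩ := hf
  have hc : Continuous fun z => S z v := hS.comp (Continuous.prodMk_left v)
  have hs : HasCompactSupport fun z => S z v := by
    refine HasCompactSupport.intro (isCompact_closedBall v R) fun z hz => ?_
    by_contra hne
    exact hz (Metric.mem_closedBall.2 (hR z v hne))
  have hi : Integrable (fun z => |S z v| * m) := ((hc.integrable_of_hasCompactSupport hs).abs).mul_const m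
  refine hi.mono' ((hc.stronglyMeasurable.smul h1).aestronglyMeasurable) (Filter.Eventually.of_forall fun z => ?_)
  rw [norm_smul, Real.norm_eq_abs]
  exact mul_le_mul_of_nonneg_left (h2 z) (abs_nonneg _)

theorem DET_Tsub {S : ℍ → ℍ → ℝ} (hS : Continuous (Function.uncurry S)) {R : ℝ}
    (hR : ∀ z v, S z v ≠ 0 → dist z v ≤ R) {f g : ℍ → V} (hf : DET_B f) (hg : DET_B g) (v : ℍ) :
    ∫ z : ℍ, S z v • (f z - g z) = (∫ z : ℍ, S z v • f z) - ∫ z : ℍ, S z v • g z := by
  rw [← integral_sub (DET_Sint hS hR hf v) (DET_Sint hS hR hg v)]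
  simp_rw [smul_sub]

theorem DET_inner {f : ℍ → V} (hf : DET_B f) : StronglyMeasurable (fun p : ℍ × ℍ => (inner ℂ (f p.1) (f p.2)).re) ∧
    ∃ m : ℝ, 0 ≤ m ∧ ∀ z w, |(inner ℂ (f z) (f w)).re| ≤ m := by
  obtain ⟨h1, m, h2⟩ := hf
  refine ⟨?_, m * m, mul_self_nonneg m, fun z w => ?_⟩
  · exact Complex.continuous_re.comp_stronglyMeasurable
      ((h1.comp_measurable measurable_fst).inner (h1.comp_measurable measurable_snd))
  · refine (Complex.abs_re_le_norm _).trans ((norm_inner_le_norm _ _).trans ?_)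
    exact mul_le_mul (h2 z) (h2 w) (norm_nonneg _) ((norm_nonneg _).trans (h2 z))

theorem DET_ain {a : ℍ → ℍ → ℝ} (ha : Continuous (Function.uncurry a)) {R : ℝ}
    (hR : ∀ z v, a z v ≠ 0 → dist z v ≤ R) {f : ℍ → V} (hf : DET_B f) (z : ℍ) :
    Integrable (fun w => a z w * (inner ℂ (f z) (f w)).re) := by
  obtain ⟨h1, m, _, h2⟩ := DET_inner hf
  have hc : Continuous fun w => a z w := ha.comp (Continuous.prodMk_right z)
  have hs : HasCompactSupport fun w => a z w := by
    refine HasCompactSupport.intro (isCompact_closedBall z R) fun w hw => ?_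
    by_contra hne
    exact hw (Metric.mem_closedBall.2 (by rw [dist_comm]; exact hR z w hne))
  have hi : Integrable (fun w => |a z w| * m) := ((hc.integrable_of_hasCompactSupport hs).abs).mul_const m
  have hm : StronglyMeasurable fun w => (inner ℂ (f z) (f w)).re :=
    h1.comp_measurable (measurable_const.prodMk measurable_id)
  refine hi.mono' ((hc.stronglyMeasurable.mul hm).aestronglyMeasurable) (Filter.Eventually.of_forall fun w => ?_)
  rw [Real.norm_eq_abs, abs_mul]
  exact mul_le_mul_of_nonneg_left (h2 z w) (abs_nonneg _)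

theorem DET_aout {a : ℍ → ℍ → ℝ} (ha : Continuous (Function.uncurry a)) {R : ℝ}
    (hR : ∀ z v, a z v ≠ 0 → dist z v ≤ R) {K : Set ℍ} (hK : IsCompact K) (hFK : F ⊆ K) (hF : MeasurableSet F)
    {f : ℍ → V} (hf : DET_B f) :
    IntegrableOn (fun z => ∫ w : ℍ, a z w * (inner ℂ (f z) (f w)).re) F volume := by
  obtain ⟨h1, m, hm0, h2⟩ := DET_inner hf
  have hsm : StronglyMeasurable (fun z => ∫ w : ℍ, a z w * (inner ℂ (f z) (f w)).re) := by
    have h3 : StronglyMeasurable (fun p : ℍ × ℍ => a p.1 p.2 * (inner ℂ (f p.1) (f p.2)).re) :=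
      (ha.stronglyMeasurable).mul h1
    exact h3.integral_prod_right'
  set K₂ := Metric.cthickening R K with hK₂
  have hK₂c : IsCompact K₂ := hK.cthickening
  obtain ⟨M, hM⟩ := (hK.prod hK₂c).exists_bound_of_continuousOn ha.continuousOn
  have hbd : ∀ z ∈ F, ‖∫ w : ℍ, a z w * (inner ℂ (f z) (f w)).re‖ ≤ |M| * m * (volume K₂).toReal := by
    intro z hz
    have hzero : ∀ w, w ∉ K₂ → a z w * (inner ℂ (f z) (f w)).re = 0 := by
      intro w hw
      have : a z w = 0 := by
        by_contra hne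
        apply hw
        refine Metric.mem_cthickening_of_dist_le w z R K (hFK hz) ?_
        rw [dist_comm]
        exact hR z w hne
      rw [this, zero_mul]
    rw [← setIntegral_eq_integral_of_forall_compl_eq_zero hzero]
    refine norm_setIntegral_le_of_norm_le_const hK₂c.measure_lt_top (fun w hw => ?_)
    rw [norm_mul, Real.norm_eq_abs, Real.norm_eq_abs]
    refine mul_le_mul ?_ (h2 z w) (abs_nonneg _) (abs_nonneg _)
    have := hM (z, w) ⟨hFK hz, hw⟩
    rw [Real.norm_eq_abs] at this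
    exact this.trans (le_abs_self _)
  have hFfin : volume F < ⊤ := lt_of_le_of_lt (measure_mono hFK) hK.measure_lt_top
  exact Measure.integrableOn_of_bounded hFfin.ne hsm.aestronglyMeasurable (M := |M| * m * (volume K₂).toReal)
    ((ae_restrict_iff' hF).2 (Filter.Eventually.of_forall hbd))

/-- the form of the kernel -/
noncomputable def DET_q (F : Set ℍ) (a : ℍ → ℍ → ℝ) (f : ℍ → V) : ℝ :=
  ∫ z in F, ∫ w : ℍ, a z w * (inner ℂ (f z) (f w)).re

theorem DET_qsub {a₁ a₂ : ℍ → ℍ → ℝ} (h₁ : Continuous (Function.uncurry a₁)) (h₂ : Continuous (Function.uncurry a₂))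
    {R₁ R₂ : ℝ} (hR₁ : ∀ z v, a₁ z v ≠ 0 → dist z v ≤ R₁) (hR₂ : ∀ z v, a₂ z v ≠ 0 → dist z v ≤ R₂)
    {K : Set ℍ} (hK : IsCompact K) (hFK : F ⊆ K) (hF : MeasurableSet F) {f : ℍ → V} (hf : DET_B f) (c : ℝ) :
    DET_q F (fun z w => a₁ z w - c * a₂ z w) f = DET_q F a₁ f - c * DET_q F a₂ f := by
  unfold DET_q
  have e1 : ∀ z, ∫ w : ℍ, (a₁ z w - c * a₂ z w) * (inner ℂ (f z) (f w)).re =
      (∫ w : ℍ, a₁ z w * (inner ℂ (f z) (f w)).re) - c * ∫ w : ℍ, a₂ z w * (inner ℂ (f z) (f w)).re := by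
    intro z
    have e : ∀ w, (a₁ z w - c * a₂ z w) * (inner ℂ (f z) (f w)).re =
        a₁ z w * (inner ℂ (f z) (f w)).re - c * (a₂ z w * (inner ℂ (f z) (f w)).re) := fun w => by ring
    simp_rw [e]
    rw [integral_sub (DET_ain h₁ hR₁ hf z) ((DET_ain h₂ hR₂ hf z).const_mul c), integral_const_mul]
  simp_rw [e1]
  rw [integral_sub (DET_aout h₁ hR₁ hK hFK hF hf) ((DET_aout h₂ hR₂ hK hFK hF hf).const_mul c), integral_const_mul]

end kernels

section cells

variable {Γ : Subgroup SL(2, ℝ)} {V : Type} [NormedAddCommGroup V] [InnerProductSpace ℂ V] {F : Set ℍ}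

/-- the section with given values on the cells -/
theorem DET_cell (hF : NiceDom Γ F) (hct : Countable Γ) (ρ : Γ →* (V ≃ₗᵢ[ℂ] V)) {k : ℕ} (c : Fin k → Set ℍ)
    (hcm : ∀ i, MeasurableSet (c i)) (hcu : (⋃ i, c i) = F) (hcd : ∀ i j, i ≠ j → Disjoint (c i) (c j))
    (x : Fin k → V) : ∃ E : ℍ → V, SecB ρ E ∧ ∀ i, ∀ z ∈ c i, E z = x i := by
  classical
  choose g hg using fun z => (hF.uniq z).exists
  have hu : ∀ (z : ℍ) (γ : Γ), γ • z ∈ F → γ = g z := fun z γ h => (hF.uniq z).unique h (hg z)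
  have hcell : ∀ z ∈ F, ∃ i, z ∈ c i := by
    intro z hz
    rw [← hcu] at hz
    exact mem_iUnion.1 hz
  choose i hi using fun z => hcell (g z • z) (hg z)
  have hui : ∀ (z : ℍ) (j : Fin k), g z • z ∈ c j → j = i z := by
    intro z j hj
    by_contra hne
    exact (Set.disjoint_left.1 (hcd _ _ hne)) hj (hi z)
  let G : ℍ → Γ × Fin k := fun z => (g z, i z)
  let _ : MeasurableSpace (Γ × Fin k) := ⊤
  have hGm : Measurable G := by
    refine measurable_to_countable' fun y => ?_
    have e : G ⁻¹' {y} = {z | y.1 • z ∈ c y.2} := by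
      ext z
      rw [mem_preimage, mem_singleton_iff, mem_setOf]
      constructor
      · rintro rfl
        exact hi z
      · intro h
        have h1 : y.1 = g z := hu z y.1 (by rw [← hcu]; exact mem_iUnion.2 ⟨_, h⟩)
        have h2 : y.2 = i z := hui z y.2 (by rw [← h1]; exact h)
        exact Prod.ext h1.symm h2.symm
    rw [e]
    exact (TR3_smul_cont y.1).measurable (hcm y.2)
  let h : Γ × Fin k → V := fun y => ρ y.1⁻¹ (x y.2)
  have hsm : StronglyMeasurable h := StronglyMeasurable.of_discrete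
  refine ⟨fun z => h (G z), ⟨hsm.comp_measurable hGm, ⟨∑ j, ‖x j‖, fun z => ?_⟩, fun γ z => ?_⟩, fun j z hz => ?_⟩
  · change ‖ρ (g z)⁻¹ (x (i z))‖ ≤ _
    rw [LinearIsometryEquiv.norm_map]
    exact Finset.single_le_sum (f := fun j => ‖x j‖) (fun j _ => norm_nonneg _) (Finset.mem_univ _)
  · have h1 : g (γ • z) = g z * γ⁻¹ := by
      refine (hu (γ • z) (g z * γ⁻¹) ?_).symm
      rw [mul_smul, inv_smul_smul]
      exact hg z
    have h2 : i (γ • z) = i z := by
      refine hui z _ ?_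
      have h3 := hi (γ • z)
      rw [h1, mul_smul, inv_smul_smul] at h3
      exact h3
    change ρ (g (γ • z))⁻¹ (x (i (γ • z))) = ρ γ (ρ (g z)⁻¹ (x (i z)))
    rw [h1, h2, mul_inv_rev, inv_inv, map_mul]
    rfl
  · have hzF : z ∈ F := by rw [← hcu]; exact mem_iUnion.2 ⟨_, hz⟩
    have h1 : g z = 1 := (hu z 1 (by rw [one_smul]; exact hzF)).symm
    have h2 : i z = j := (hui z j (by rw [h1, one_smul]; exact hz)).symm
    change ρ (g z)⁻¹ (x (i z)) = x j
    rw [h1, h2, inv_one, map_one]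
    rfl

end cells

end Pool.Agent.QX
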