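import Pool.Agent.helper71.QX.DETd

/-!
# Project QX, row DET, part 5: the operators `WQQ` and `(Δ - μ₀) WQQ`; the estimate for eigensections
-/

set_option autoImplicit false

open scoped MatrixGroups ContDiff Topology UpperHalfPlane
open UpperHalfPlane MeasureTheory ProbabilityTheory Filter Set Polynomial
open Pool.Agent.QU Pool.Agent.RP

namespace Pool.Agent.QX

section

variable {Γ : Subgroup SL(2, ℝ)} {F : Set ℍ}

theorem DET_Q (hYNM : YNM_stmt) {κ₁ : ℝ → ℝ} {C₁ : ℝ} (hBF : BF κ₁ C₁) (hΓ : SurfaceGroup Γ) (hF : NiceDom Γ F)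
    {η : ℝ} (hη : 0 < η) {V : Type} [NormedAddCommGroup V] [InnerProductSpace ℂ V] [CompleteSpace V]
    {ρ : Γ →* (V ≃ₗᵢ[ℂ] V)} {f : ℍ → V} (hf : SecB ρ f) :
    SecC ρ (conv (fm κ₁ η) f) ∧ DET_N F (conv (fm κ₁ η) f) ≤ DET_N F f := by
  have hm : ∀ z : ℍ, ∫ w : ℍ, |fm κ₁ η (tt z w)| ≤ 1 := by
    intro z
    have e : ∀ w : ℍ, |fm κ₁ η (tt z w)| = fm κ₁ η (tt z w) := fun w => abs_of_nonneg (hBF.fam.nonneg η hη _)
    simp_rw [e]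
    exact (hBF.fam.mass η hη z).le
  obtain ⟨h1, h2⟩ := hYNM Γ F V ρ (fm κ₁ η) f 1 hΓ hF (hBF.fam.rk η hη) hf hm
  refine ⟨h1, DET_N_le _ (DET_N_nonneg _) ?_⟩
  rw [DET_N_sq]
  rwa [one_pow, one_mul] at h2

theorem DET_ops (hYNM : YNM_stmt) (hSRK : SRK_stmt) (hLPA : LPA_stmt) {κ₁ : ℝ → ℝ} {C₁ : ℝ} (hBF : BF κ₁ C₁)
    (hΓ : SurfaceGroup Γ) (hF : NiceDom Γ F) {p : ℝ[X]} {τ η μ₀ C w : ℝ} (hτ : 0 < τ) (hτ1 : τ ≤ 1)
    (hη : 0 < η) (hη1 : η ≤ 1) (hw : 0 ≤ w) (hC : 0 ≤ C)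
    (hW : ∀ (V : Type) [NormedAddCommGroup V] [InnerProductSpace ℂ V] [CompleteSpace V]
      (ρ : Γ →* (V ≃ₗᵢ[ℂ] V)) (χ : ℍ → V), SecC ρ χ →
        ∫ z in F, ‖pA (fm κ₁ τ) p (conv (fm κ₁ η) χ) z‖ ^ 2 ≤ C ^ 2 * (∫ z in F, ‖χ z‖ ^ 2) ∧
        w ^ 2 * (∫ z in F, ‖lap (pA (fm κ₁ τ) p (conv (fm κ₁ η) χ)) z -
          μ₀ • pA (fm κ₁ τ) p (conv (fm κ₁ η) χ) z‖ ^ 2) ≤ C ^ 2 * ∫ z in F, ‖χ z‖ ^ 2) :
    DET_Op Γ F (Sk (fm κ₁ τ) p (fm κ₁ η) (fm κ₁ η)) (2 * (p.natDegree * Real.sqrt τ + 2)) C 1 ∧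
    DET_Op Γ F (Sk (fm κ₁ τ) p (fun t => LL (fm κ₁ η) t - μ₀ * fm κ₁ η t) (fm κ₁ η))
      (2 * (p.natDegree * Real.sqrt τ + 2)) C w ∧
    ∀ (V : Type) [NormedAddCommGroup V] [InnerProductSpace ℂ V] [CompleteSpace V]
      (ρ : Γ →* (V ≃ₗᵢ[ℂ] V)) (f : ℍ → V), SecB ρ f →
      (∀ v, ∫ z : ℍ, Sk (fm κ₁ τ) p (fm κ₁ η) (fm κ₁ η) z v • f z =
        pA (fm κ₁ τ) p (conv (fm κ₁ η) (conv (fm κ₁ η) f)) v) ∧
      ∀ v, ∫ z : ℍ, Sk (fm κ₁ τ) p (fun t => LL (fm κ₁ η) t - μ₀ * fm κ₁ η t) (fm κ₁ η) z v • f z =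
        lap (pA (fm κ₁ τ) p (conv (fm κ₁ η) (conv (fm κ₁ η) f))) v -
          μ₀ • pA (fm κ₁ τ) p (conv (fm κ₁ η) (conv (fm κ₁ η) f)) v := by
  have rκ : RK (fm κ₁ τ) := hBF.fam.rk τ hτ
  have ra : RK (fm κ₁ η) := hBF.fam.rk η hη
  have rt : RK (fun t => LL (fm κ₁ η) t - μ₀ * fm κ₁ η t) := by
    have h1 := A_LAK.2.2.2.2 (LL (fm κ₁ η)) (fm κ₁ η) 1 (-μ₀) (A_LAK.2.2.2.1 _ ra) ra
    have e : (fun t => LL (fm κ₁ η) t - μ₀ * fm κ₁ η t) = fun t => 1 * LL (fm κ₁ η) t + (-μ₀) * fm κ₁ η t := by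
      funext t
      ring
    rw [e]
    exact h1
  have sκ := hBF.fam.supp τ hτ
  have sa := hBF.fam.supp η hη
  have st : ∀ t, η ≤ t → LL (fm κ₁ η) t - μ₀ * fm κ₁ η t = 0 := by
    intro t ht
    rw [DET_LL0 ra.smooth sa t ht, sa t ht]
    ring
  obtain ⟨c1, i1, s1, t1⟩ := hSRK (fm κ₁ τ) (fm κ₁ η) (fm κ₁ η) p rκ ra ra
  obtain ⟨c2, i2, s2, t2⟩ := hSRK (fm κ₁ τ) (fun t => LL (fm κ₁ η) t - μ₀ * fm κ₁ η t) (fm κ₁ η) p rκ rt ra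
  have S1 := s1 τ η hτ.le hτ1 hη.le hη1 sκ sa sa
  have S2 := s2 τ η hτ.le hτ1 hη.le hη1 sκ st sa
  have hrep : ∀ (V : Type) [NormedAddCommGroup V] [InnerProductSpace ℂ V] [CompleteSpace V]
      (ρ : Γ →* (V ≃ₗᵢ[ℂ] V)) (f : ℍ → V), SecB ρ f →
      (∀ v, ∫ z : ℍ, Sk (fm κ₁ τ) p (fm κ₁ η) (fm κ₁ η) z v • f z =
        pA (fm κ₁ τ) p (conv (fm κ₁ η) (conv (fm κ₁ η) f)) v) ∧
      ∀ v, ∫ z : ℍ, Sk (fm κ₁ τ) p (fun t => LL (fm κ₁ η) t - μ₀ * fm κ₁ η t) (fm κ₁ η) z v • f z =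
        lap (pA (fm κ₁ τ) p (conv (fm κ₁ η) (conv (fm κ₁ η) f))) v -
          μ₀ • pA (fm κ₁ τ) p (conv (fm κ₁ η) (conv (fm κ₁ η) f)) v := by
    intro V _ _ _ ρ f hf
    obtain ⟨hc, e1⟩ := t1 V f hf.meas hf.bdd
    obtain ⟨-, e2⟩ := t2 V f hf.meas hf.bdd
    obtain ⟨-, -, e3⟩ := hLPA V (fm κ₁ τ) (fm κ₁ η) p μ₀ (conv (fm κ₁ η) f) rκ ra hc
    exact ⟨fun v => (e1 v).symm, fun v => by rw [e3 v, e2 v]⟩
  refine ⟨⟨c1, S1, i1, ?_⟩, ⟨c2, S2, i2, ?_⟩, hrep⟩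
  · intro V _ _ _ ρ f hf
    obtain ⟨hQ, hQN⟩ := DET_Q hYNM hBF hΓ hF hη hf
    obtain ⟨cd, -, -⟩ := hLPA V (fm κ₁ τ) (fm κ₁ η) p μ₀ (conv (fm κ₁ η) f) rκ ra hQ.cont
    have e : (fun v => ∫ z : ℍ, Sk (fm κ₁ τ) p (fm κ₁ η) (fm κ₁ η) z v • f z) =
        pA (fm κ₁ τ) p (conv (fm κ₁ η) (conv (fm κ₁ η) f)) := by
      funext v
      exact (hrep V ρ f hf).1 v
    refine ⟨⟨?_, fun γ v => DET_Teqv c1 S1 i1 hf γ v⟩, ?_⟩
    · rw [e]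
      exact ((A_CA1 V).1 _).1 ((A_CA1 V).2.1 _ 0 ∞ zero_le cd)
    · rw [e, one_mul]
      refine (DET_N_le _ (mul_nonneg hC (DET_N_nonneg _)) ?_).trans (mul_le_mul_of_nonneg_left hQN hC)
      rw [mul_pow, DET_N_sq]
      exact (hW V ρ _ hQ).1
  · intro V _ _ _ ρ f hf
    obtain ⟨hQ, hQN⟩ := DET_Q hYNM hBF hΓ hF hη hf
    obtain ⟨cd, -, -⟩ := hLPA V (fm κ₁ τ) (fun t => LL (fm κ₁ η) t - μ₀ * fm κ₁ η t) p μ₀ (conv (fm κ₁ η) f) rκ rt hQ.cont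
    have e0 : (fun v => ∫ z : ℍ, Sk (fm κ₁ τ) p (fun t => LL (fm κ₁ η) t - μ₀ * fm κ₁ η t) (fm κ₁ η) z v • f z) =
        pA (fm κ₁ τ) p (conv (fun t => LL (fm κ₁ η) t - μ₀ * fm κ₁ η t) (conv (fm κ₁ η) f)) := by
      funext v
      exact ((t2 V f hf.meas hf.bdd).2 v).symm
    have e : (fun v => ∫ z : ℍ, Sk (fm κ₁ τ) p (fun t => LL (fm κ₁ η) t - μ₀ * fm κ₁ η t) (fm κ₁ η) z v • f z) =
        fun v => lap (pA (fm κ₁ τ) p (conv (fm κ₁ η) (conv (fm κ₁ η) f))) v -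
          μ₀ • pA (fm κ₁ τ) p (conv (fm κ₁ η) (conv (fm κ₁ η) f)) v := by
      funext v
      exact (hrep V ρ f hf).2 v
    refine ⟨⟨?_, fun γ v => DET_Teqv c2 S2 i2 hf γ v⟩, ?_⟩
    · rw [e0]
      exact ((A_CA1 V).1 _).1 ((A_CA1 V).2.1 _ 0 ∞ zero_le cd)
    · rw [e]
      refine le_trans ?_ (mul_le_mul_of_nonneg_left hQN hC)
      refine le_of_sq_le_sq ?_ (mul_nonneg hC (DET_N_nonneg _))
      rw [mul_pow, mul_pow, DET_N_sq, DET_N_sq]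
      exact (hW V ρ _ hQ).2

/-- the estimate for eigensections -/
theorem DET_eigen (hAKR : AKR_stmt) (hΓ : SurfaceGroup Γ) (hF : NiceDom Γ F) {S₁ S₂ : ℍ → ℍ → ℝ} {R C w c C' : ℝ}
    (hS₁ : DET_Op Γ F S₁ R C 1) (hS₂ : DET_Op Γ F S₂ R C w) (hC : 1 ≤ C) (hw : 0 ≤ w) (hC' : 0 ≤ C')
    (hc : c = C' * w ^ 2) {h : ℍ → ℝ} (hh : Inv Γ h) {m δ d K : ℝ} (hm : ∀ z, |h z| ≤ m) (hδ : 0 ≤ δ) (hδ1 : δ ≤ 1)
    (hd : 0 ≤ d) (hd1 : d * (C ^ 2 * (C' + 1)) ≤ δ) (hK : (m + 1) * C ^ 2 + C' * C ^ 2 + 1 = K)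
    {V : Type} [NormedAddCommGroup V] [InnerProductSpace ℂ V] [CompleteSpace V]
    {ρ : Γ →* (V ≃ₗᵢ[ℂ] V)} {φ f E : ℍ → V} (hφ : SecC ρ φ) (hf : SecC ρ f) (hE : SecB ρ E)
    (hNf : DET_N F f ≤ DET_N F φ) (hfφ : DET_N F (fun z => f z - φ z) ≤ d * DET_N F φ)
    (h1 : DET_N F (fun v => (∫ z : ℍ, S₁ z v • φ z) - φ v) ≤ C * d * DET_N F φ)
    (h2 : w * DET_N F (fun v => ∫ z : ℍ, S₂ z v • φ z) ≤ C * d * DET_N F φ)
    (h3 : DET_N F (fun z => f z - E z) ≤ δ / (4 * K) * DET_N F φ)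
    (h4 : DET_q F (fun z w => aS (fun v => h v - δ) S₁ z w - c * aS (fun _ => 1) S₂ z w) E ≤ d * DET_N F E ^ 2) :
    ∫ z in F, h z * ‖φ z‖ ^ 2 ≤ 10 * C ^ 2 * (1 + m) * δ * ∫ z in F, ‖φ z‖ ^ 2 := by
  have hvol : volume F < ⊤ := (A_DOB Γ F hΓ hF).2.2.2.1
  have hm0 : 0 ≤ m := (abs_nonneg _).trans (hm UpperHalfPlane.I)
  have hC0 : 0 ≤ C := zero_le_one.trans hC
  have hC2 : 1 ≤ C ^ 2 := by nlinarith
  have hK1 : 1 ≤ K := by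
    rw [← hK]
    have : 0 ≤ (m + 1) * C ^ 2 + C' * C ^ 2 := by positivity
    linarith
  have hdδ : d ≤ δ := by
    refine le_trans ?_ hd1
    have : 1 ≤ C ^ 2 * (C' + 1) := by nlinarith
    nlinarith
  obtain ⟨core1, core2⟩ := DET_core (V := V) (ρ := ρ) hAKR hΓ hF hS₁ hS₂ hC0 hw hC' hc hh hm hδ hδ1
  have hφB := DET_CB hΓ hF hφ
  have hfB := DET_CB hΓ hF hf
  have hdB := DET_secsub hfB hφB
  set N := DET_N F φ with hN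
  have hN0 : 0 ≤ N := DET_N_nonneg _
  -- operators
  obtain ⟨a1, b1⟩ := hS₁.bd V ρ φ hφB
  obtain ⟨a2, b2⟩ := hS₁.bd V ρ f hfB
  obtain ⟨a3, b3⟩ := hS₁.bd V ρ _ hdB
  obtain ⟨a4, b4⟩ := hS₂.bd V ρ φ hφB
  obtain ⟨a5, b5⟩ := hS₂.bd V ρ f hfB
  obtain ⟨a6, b6⟩ := hS₂.bd V ρ _ hdB
  rw [one_mul] at b1 b2 b3
  -- N(E) ≤ 2N
  have hδK : δ / (4 * K) ≤ 1 / 4 := by
    rw [div_le_div_iff₀ (by linarith) (by norm_num)]
    nlinarith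
  have hNE : DET_N F E ≤ 2 * N := by
    have e : E = fun z => f z + (E z - f z) := by
      funext z
      abel
    have h5 : DET_N F E ≤ DET_N F f + DET_N F (fun z => E z - f z) := by
      conv_lhs => rw [e]
      exact DET_tri hvol (DET_SB hfB) (DET_B_sub (DET_SB hE) (DET_SB hfB))
    have h6 : DET_N F (fun z => E z - f z) = DET_N F (fun z => f z - E z) := by
      unfold DET_N
      simp_rw [norm_sub_rev]
    rw [h6] at h5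
    nlinarith
  -- value at f
  have hqf := core2 f E hfB hE
  have hqE : DET_q F (fun z w => aS (fun v => h v - δ) S₁ z w - c * aS (fun _ => 1) S₂ z w) E ≤ 4 * δ * N ^ 2 := by
    refine h4.trans ?_
    have : DET_N F E ^ 2 ≤ (2 * N) ^ 2 := pow_le_pow_left₀ (DET_N_nonneg _) hNE 2
    nlinarith [sq_nonneg N, mul_le_mul hdδ this (by positivity) hδ]
  have hX : ((m + 1) * C ^ 2 + C' * C ^ 2) * (DET_N F (fun z => f z - E z) * (DET_N F f + DET_N F E)) ≤ δ * N ^ 2 := by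
    have h7 : DET_N F (fun z => f z - E z) * (DET_N F f + DET_N F E) ≤ (δ / (4 * K) * N) * (3 * N) := by
      refine mul_le_mul h3 (by linarith) (add_nonneg (DET_N_nonneg _) (DET_N_nonneg _)) ?_
      exact mul_nonneg (div_nonneg hδ (by linarith)) hN0
    have h8 : (m + 1) * C ^ 2 + C' * C ^ 2 ≤ K := by linarith
    have h9 : ((m + 1) * C ^ 2 + C' * C ^ 2) * (DET_N F (fun z => f z - E z) * (DET_N F f + DET_N F E)) ≤
        K * ((δ / (4 * K) * N) * (3 * N)) := by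
      refine mul_le_mul h8 h7 ?_ (by linarith)
      exact mul_nonneg (DET_N_nonneg _) (add_nonneg (DET_N_nonneg _) (DET_N_nonneg _))
    refine h9.trans ?_
    have e : K * ((δ / (4 * K) * N) * (3 * N)) = 3 / 4 * (δ * N ^ 2) := by
      field_simp
    rw [e]
    have : 0 ≤ δ * N ^ 2 := by positivity
    linarith
  have hqf2 : DET_q F (fun z w => aS (fun v => h v - δ) S₁ z w - c * aS (fun _ => 1) S₂ z w) f ≤ 5 * δ * N ^ 2 := by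
    have := (abs_le.1 (hqf.trans hX)).2
    linarith
  rw [core1 f hfB] at hqf2
  -- u - φ
  set u : ℍ → V := fun v => ∫ z : ℍ, S₁ z v • f z with hu
  set u₀ : ℍ → V := fun v => ∫ z : ℍ, S₁ z v • φ z with hu₀
  have hT1 : (fun v => ∫ z : ℍ, S₁ z v • (f z - φ z)) = fun v => u v - u₀ v := by
    funext v
    exact DET_Tsub hS₁.cont hS₁.prop (DET_SB hfB) (DET_SB hφB) v
  have hT2 : (fun v => ∫ z : ℍ, S₂ z v • (f z - φ z)) =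
      fun v => (∫ z : ℍ, S₂ z v • f z) - ∫ z : ℍ, S₂ z v • φ z := by
    funext v
    exact DET_Tsub hS₂.cont hS₂.prop (DET_SB hfB) (DET_SB hφB) v
  rw [hT1] at b3
  rw [hT2] at b6
  have huB := DET_SB (DET_CB hΓ hF a2)
  have hu₀B := DET_SB (DET_CB hΓ hF a1)
  have hvB := DET_SB (DET_CB hΓ hF a5)
  have hv₀B := DET_SB (DET_CB hΓ hF a4)
  have hCd : C * DET_N F (fun z => f z - φ z) ≤ C * d * N := by
    rw [mul_assoc]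
    exact mul_le_mul_of_nonneg_left hfφ hC0
  have k1 : DET_N F (fun z => u z - φ z) ≤ 2 * C * d * N := by
    have e : (fun z => u z - φ z) = fun z => (u z - u₀ z) + (u₀ z - φ z) := by
      funext z
      abel
    rw [e]
    refine (DET_tri hvol (DET_B_sub huB hu₀B) (DET_B_sub hu₀B (DET_SB hφB))).trans ?_
    linarith
  have k2 : w * DET_N F (fun v => ∫ z : ℍ, S₂ z v • f z) ≤ 2 * C * d * N := by
    have e : (fun v => ∫ z : ℍ, S₂ z v • f z) =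
        fun v => ((∫ z : ℍ, S₂ z v • f z) - ∫ z : ℍ, S₂ z v • φ z) + ∫ z : ℍ, S₂ z v • φ z := by
      funext v
      abel
    rw [e]
    refine (mul_le_mul_of_nonneg_left (DET_tri hvol (DET_B_sub hvB hv₀B) hv₀B) hw).trans ?_
    rw [mul_add]
    linarith
  have k3 : DET_N F u ≤ C * N := b2.trans (mul_le_mul_of_nonneg_left hNf hC0)
  have k4 : (w * DET_N F (fun v => ∫ z : ℍ, S₂ z v • f z)) ^ 2 ≤ (2 * C * d * N) ^ 2 :=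
    pow_le_pow_left₀ (mul_nonneg hw (DET_N_nonneg _)) k2 2
  have k5 : DET_N F u ^ 2 ≤ (C * N) ^ 2 := pow_le_pow_left₀ (DET_N_nonneg _) k3 2
  -- ∫ h ‖u‖²
  have k6 : ∫ v in F, (h v - δ) * ‖u v‖ ^ 2 = (∫ v in F, h v * ‖u v‖ ^ 2) - δ * DET_N F u ^ 2 := by
    obtain ⟨x1, x2⟩ := DET_B_norm huB
    have sqb : StronglyMeasurable (fun z => ‖u z‖ ^ 2) ∧ ∃ m : ℝ, ∀ z, |‖u z‖ ^ 2| ≤ m := by
      obtain ⟨m', hm'⟩ := x2
      refine ⟨x1.pow 2, m' ^ 2, fun z => ?_⟩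
      rw [abs_pow]
      exact pow_le_pow_left₀ (abs_nonneg _) (hm' z) 2
    have i1 : IntegrableOn (fun z => h z * ‖u z‖ ^ 2) F volume :=
      DET_mulint hvol hh.1.stronglyMeasurable ⟨m, hm⟩ sqb.1 sqb.2
    have i2 : IntegrableOn (fun z => ‖u z‖ ^ 2) F volume := DET_bint hvol sqb.1 sqb.2
    rw [DET_N_sq, ← integral_const_mul, ← integral_sub i1 (i2.const_mul δ)]
    refine integral_congr_ae (Filter.Eventually.of_forall fun z => ?_)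
    simp only
    ring
  have k7 : ∫ v in F, h v * ‖u v‖ ^ 2 ≤ 5 * δ * N ^ 2 + δ * (C * N) ^ 2 + C' * (2 * C * d * N) ^ 2 := by
    rw [k6, hc] at hqf2
    have e1 : δ * DET_N F u ^ 2 ≤ δ * (C * N) ^ 2 := mul_le_mul_of_nonneg_left k5 hδ
    have e2 : C' * w ^ 2 * DET_N F (fun v => ∫ z : ℍ, S₂ z v • f z) ^ 2 ≤ C' * (2 * C * d * N) ^ 2 := by
      calc _ = C' * (w * DET_N F (fun v => ∫ z : ℍ, S₂ z v • f z)) ^ 2 := by ring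
        _ ≤ _ := mul_le_mul_of_nonneg_left k4 hC'
    linarith
  have k8 := DET_diff hvol hh.1.stronglyMeasurable hm huB (DET_SB hφB)
  have k9 : m * (DET_N F (fun z => u z - φ z) * (DET_N F u + N)) ≤ m * ((2 * C * d * N) * (C * N + N)) := by
    refine mul_le_mul_of_nonneg_left ?_ hm0
    exact mul_le_mul k1 (by linarith) (add_nonneg (DET_N_nonneg _) hN0) (by positivity)
  have k10 := (abs_le.1 (k8.trans k9)).1
  rw [← DET_N_sq (F := F) φ, ← hN]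
  -- numbers
  have n1 : d * C ^ 2 ≤ δ * C ^ 2 := mul_le_mul_of_nonneg_right hdδ (by positivity)
  have n2 : C' * (2 * C * d * N) ^ 2 ≤ 4 * δ * N ^ 2 := by
    have e : C' * (2 * C * d * N) ^ 2 = 4 * (d * (C ^ 2 * C')) * d * N ^ 2 := by ring
    rw [e]
    have e1 : d * (C ^ 2 * C') ≤ 1 := by
      have : d * (C ^ 2 * C') ≤ d * (C ^ 2 * (C' + 1)) :=
        mul_le_mul_of_nonneg_left (mul_le_mul_of_nonneg_left (by linarith) (by positivity)) hd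
      linarith
    have e2 : d * (C ^ 2 * C') * d ≤ 1 * δ := mul_le_mul e1 hdδ hd zero_le_one
    nlinarith [sq_nonneg N, mul_le_mul_of_nonneg_right e2 (sq_nonneg N)]
  have n3 : m * ((2 * C * d * N) * (C * N + N)) ≤ 4 * C ^ 2 * m * δ * N ^ 2 := by
    have e : m * ((2 * C * d * N) * (C * N + N)) = m * N ^ 2 * (2 * d * (C ^ 2 + C)) := by ring
    have e1 : 2 * d * (C ^ 2 + C) ≤ 4 * (C ^ 2 * δ) := by
      have : C ≤ C ^ 2 := by nlinarith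
      nlinarith
    rw [e]
    calc m * N ^ 2 * (2 * d * (C ^ 2 + C)) ≤ m * N ^ 2 * (4 * (C ^ 2 * δ)) :=
          mul_le_mul_of_nonneg_left e1 (by positivity)
      _ = _ := by ring
  have n4 : δ * (C * N) ^ 2 = C ^ 2 * δ * N ^ 2 := by ring
  have n5 : 0 ≤ δ * N ^ 2 := by positivity
  have n6 : δ * N ^ 2 ≤ C ^ 2 * (δ * N ^ 2) := le_mul_of_one_le_left n5 hC2
  have n7 : 0 ≤ C ^ 2 * m * (δ * N ^ 2) := by positivity
  nlinarith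

end

end Pool.Agent.QX
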