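import Pool.Agent.helper4.QX.SpecD
import Pool.Agent.helper62.QU.All
import Pool.Agent.helper78.RP.REP

/-!
# Project QX, row DET, part 1: lemmas on bounded sections and kernels
-/

set_option autoImplicit false

open scoped MatrixGroups ContDiff Topology UpperHalfPlane
open UpperHalfPlane MeasureTheory ProbabilityTheory Filter Set Polynomial
open Pool.Agent.QU Pool.Agent.RP

namespace Pool.Agent.QX

section L2

variable {V : Type} [NormedAddCommGroup V] [InnerProductSpace ℂ V] {F : Set ℍ}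

/-- the `L²` norm over `F` -/
noncomputable def DET_N (F : Set ℍ) (f : ℍ → V) : ℝ := Real.sqrt (∫ z in F, ‖f z‖ ^ 2)

/-- bounded and measurable -/
def DET_B (f : ℍ → V) : Prop := StronglyMeasurable f ∧ ∃ m : ℝ, ∀ z, ‖f z‖ ≤ m

theorem DET_N_sq (f : ℍ → V) : DET_N F f ^ 2 = ∫ z in F, ‖f z‖ ^ 2 :=
  Real.sq_sqrt (integral_nonneg fun z => by positivity)

theorem DET_N_nonneg (f : ℍ → V) : 0 ≤ DET_N F f := Real.sqrt_nonneg _

theorem DET_N_le (f : ℍ → V) {x : ℝ} (hx : 0 ≤ x) (h : ∫ z in F, ‖f z‖ ^ 2 ≤ x ^ 2) : DET_N F f ≤ x := by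
  unfold DET_N
  exact (Real.sqrt_le_left hx).2 h

theorem DET_sq_le (f : ℍ → V) {x : ℝ} (h : DET_N F f ≤ x) : ∫ z in F, ‖f z‖ ^ 2 ≤ x ^ 2 := by
  rw [← DET_N_sq]
  exact pow_le_pow_left₀ (DET_N_nonneg f) h 2

theorem DET_B_norm {f : ℍ → V} (h : DET_B f) : StronglyMeasurable (fun z => ‖f z‖) ∧ ∃ m : ℝ, ∀ z, |‖f z‖| ≤ m := by
  obtain ⟨h1, m, h2⟩ := h
  exact ⟨h1.norm, m, fun z => by rw [abs_norm]; exact h2 z⟩

theorem DET_B_add {f g : ℍ → V} (hf : DET_B f) (hg : DET_B g) : DET_B (fun z => f z + g z) := by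
  obtain ⟨h1, m, h2⟩ := hf
  obtain ⟨h3, m', h4⟩ := hg
  exact ⟨h1.add h3, m + m', fun z => (norm_add_le _ _).trans (add_le_add (h2 z) (h4 z))⟩

theorem DET_B_sub {f g : ℍ → V} (hf : DET_B f) (hg : DET_B g) : DET_B (fun z => f z - g z) := by
  obtain ⟨h1, m, h2⟩ := hf
  obtain ⟨h3, m', h4⟩ := hg
  exact ⟨h1.sub h3, m + m', fun z => (norm_sub_le _ _).trans (add_le_add (h2 z) (h4 z))⟩

theorem DET_bint {u : ℍ → ℝ} (hF : volume F < ⊤) (hu : StronglyMeasurable u) (hm : ∃ m : ℝ, ∀ z, |u z| ≤ m) :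
    IntegrableOn u F volume := by
  obtain ⟨m, hm⟩ := hm
  exact Measure.integrableOn_of_bounded hF.ne hu.aestronglyMeasurable (M := m)
    (Filter.Eventually.of_forall fun z => by rw [Real.norm_eq_abs]; exact hm z)

theorem DET_mulint {u v : ℍ → ℝ} (hF : volume F < ⊤) (hu : StronglyMeasurable u) (hm : ∃ m : ℝ, ∀ z, |u z| ≤ m)
    (hv : StronglyMeasurable v) (hm' : ∃ m : ℝ, ∀ z, |v z| ≤ m) : IntegrableOn (fun z => u z * v z) F volume := by
  obtain ⟨m, hm⟩ := hm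
  obtain ⟨m', hm'⟩ := hm'
  refine DET_bint hF (hu.mul hv) ⟨m * m', fun z => ?_⟩
  rw [abs_mul]
  exact mul_le_mul (hm z) (hm' z) (abs_nonneg _) ((abs_nonneg _).trans (hm z))

/-- Cauchy-Schwarz -/
theorem DET_cs {u v : ℍ → ℝ} (hF : volume F < ⊤) (hu : StronglyMeasurable u) (hm : ∃ m : ℝ, ∀ z, |u z| ≤ m)
    (hv : StronglyMeasurable v) (hm' : ∃ m : ℝ, ∀ z, |v z| ≤ m) :
    ∫ z in F, u z * v z ≤ Real.sqrt (∫ z in F, u z ^ 2) * Real.sqrt (∫ z in F, v z ^ 2) := by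
  have i1 : IntegrableOn (fun z => u z ^ 2) F volume := by
    simpa [sq] using DET_mulint hF hu hm hu hm
  have i2 : IntegrableOn (fun z => v z ^ 2) F volume := by
    simpa [sq] using DET_mulint hF hv hm' hv hm'
  have i3 := DET_mulint hF hu hm hv hm'
  have key : ∀ t : ℝ, 0 ≤ (∫ z in F, v z ^ 2) * (t * t) + (-2 * ∫ z in F, u z * v z) * t + ∫ z in F, u z ^ 2 := by
    intro t
    have h0 : 0 ≤ ∫ z in F, (u z - t * v z) ^ 2 := integral_nonneg fun z => sq_nonneg _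
    have h1 : ∫ z in F, (u z - t * v z) ^ 2 =
        (∫ z in F, v z ^ 2) * (t * t) + (-2 * ∫ z in F, u z * v z) * t + ∫ z in F, u z ^ 2 := by
      have e : ∀ z, (u z - t * v z) ^ 2 = (t * t) * v z ^ 2 + ((-2 * t) * (u z * v z) + u z ^ 2) := fun z => by ring
      simp_rw [e]
      have i13 : IntegrableOn (fun z => (-2 * t) * (u z * v z) + u z ^ 2) F volume := (i3.const_mul _).add i1
      rw [integral_add (i2.const_mul _) i13, integral_add (i3.const_mul _) i1,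
        integral_const_mul, integral_const_mul]
      ring
    rw [← h1]
    exact h0
  have h2 := discrim_le_zero key
  unfold discrim at h2
  have hA : 0 ≤ ∫ z in F, u z ^ 2 := integral_nonneg fun z => sq_nonneg _
  rw [← Real.sqrt_mul hA]
  apply Real.le_sqrt_of_sq_le
  nlinarith

theorem DET_csn {W : Type} [NormedAddCommGroup W] [InnerProductSpace ℂ W] {f : ℍ → V} {g : ℍ → W}
    (hF : volume F < ⊤) (hf : DET_B f) (hg : DET_B g) :
    ∫ z in F, ‖f z‖ * ‖g z‖ ≤ DET_N F f * DET_N F g := by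
  obtain ⟨a, b⟩ := DET_B_norm hf
  obtain ⟨c, d⟩ := DET_B_norm hg
  exact DET_cs hF a b c d

theorem DET_tri {f g : ℍ → V} (hF : volume F < ⊤) (hf : DET_B f) (hg : DET_B g) :
    DET_N F (fun z => f z + g z) ≤ DET_N F f + DET_N F g := by
  refine DET_N_le _ (add_nonneg (DET_N_nonneg f) (DET_N_nonneg g)) ?_
  obtain ⟨a, b⟩ := DET_B_norm hf
  obtain ⟨c, d⟩ := DET_B_norm hg
  have i1 := DET_mulint hF a b a b
  have i2 := DET_mulint hF c d c d
  have i3 := DET_mulint hF a b c d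
  have i0 : IntegrableOn (fun z => ‖f z + g z‖ ^ 2) F volume := by
    obtain ⟨a', b'⟩ := DET_B_norm (DET_B_add hf hg)
    simpa [sq] using DET_mulint hF a' b' a' b'
  have h1 : ∫ z in F, ‖f z + g z‖ ^ 2 ≤ ∫ z in F, (‖f z‖ * ‖f z‖ + (2 * (‖f z‖ * ‖g z‖) + ‖g z‖ * ‖g z‖)) := by
    refine setIntegral_mono i0 (i1.add ((i3.const_mul 2).add i2)) fun z => ?_
    have h := norm_add_le (f z) (g z)
    have h0 := norm_nonneg (f z + g z)
    simp only
    nlinarith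
  have h2 : ∫ z in F, (‖f z‖ * ‖f z‖ + (2 * (‖f z‖ * ‖g z‖) + ‖g z‖ * ‖g z‖)) =
      DET_N F f ^ 2 + (2 * (∫ z in F, ‖f z‖ * ‖g z‖) + DET_N F g ^ 2) := by
    have i32 : IntegrableOn (fun z => 2 * (‖f z‖ * ‖g z‖) + ‖g z‖ * ‖g z‖) F volume := (i3.const_mul 2).add i2
    rw [DET_N_sq, DET_N_sq, integral_add i1 i32, integral_add (i3.const_mul 2) i2,
      integral_const_mul]
    simp only [sq]
  have h3 := DET_csn hF hf hg
  rw [h2] at h1
  nlinarith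

theorem DET_diff {H : ℍ → ℝ} {M : ℝ} {f g : ℍ → V} (hF : volume F < ⊤) (hH : StronglyMeasurable H)
    (hM : ∀ z, |H z| ≤ M) (hf : DET_B f) (hg : DET_B g) :
    |(∫ z in F, H z * ‖f z‖ ^ 2) - ∫ z in F, H z * ‖g z‖ ^ 2| ≤
      M * (DET_N F (fun z => f z - g z) * (DET_N F f + DET_N F g)) := by
  have hM0 : 0 ≤ M := (abs_nonneg _).trans (hM UpperHalfPlane.I)
  obtain ⟨a, b⟩ := DET_B_norm hf
  obtain ⟨c, d⟩ := DET_B_norm hg
  have hsub := DET_B_sub hf hg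
  obtain ⟨a', b'⟩ := DET_B_norm hsub
  have sqb : ∀ {u : ℍ → ℝ}, StronglyMeasurable u → (∃ m : ℝ, ∀ z, |u z| ≤ m) →
      StronglyMeasurable (fun z => u z ^ 2) ∧ ∃ m : ℝ, ∀ z, |u z ^ 2| ≤ m := by
    intro u hu hm
    obtain ⟨m, hm⟩ := hm
    refine ⟨hu.pow 2, m ^ 2, fun z => ?_⟩
    rw [abs_pow]
    exact pow_le_pow_left₀ (abs_nonneg _) (hm z) 2
  have i1 : IntegrableOn (fun z => H z * ‖f z‖ ^ 2) F volume := DET_mulint hF hH ⟨M, hM⟩ (sqb a b).1 (sqb a b).2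
  have i2 : IntegrableOn (fun z => H z * ‖g z‖ ^ 2) F volume := DET_mulint hF hH ⟨M, hM⟩ (sqb c d).1 (sqb c d).2
  have j1 := DET_mulint hF a' b' a b
  have j2 := DET_mulint hF a' b' c d
  rw [← integral_sub i1 i2]
  have h1 : |∫ z in F, (H z * ‖f z‖ ^ 2 - H z * ‖g z‖ ^ 2)| ≤
      ∫ z in F, M * (‖f z - g z‖ * ‖f z‖ + ‖f z - g z‖ * ‖g z‖) := by
    rw [← Real.norm_eq_abs]
    refine norm_integral_le_of_norm_le ((j1.add j2).const_mul M) (Filter.Eventually.of_forall fun z => ?_)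
    rw [Real.norm_eq_abs, ← mul_sub, abs_mul]
    refine mul_le_mul (hM z) ?_ (abs_nonneg _) hM0
    have e : ‖f z‖ ^ 2 - ‖g z‖ ^ 2 = (‖f z‖ - ‖g z‖) * (‖f z‖ + ‖g z‖) := by ring
    rw [e, abs_mul, abs_of_nonneg (add_nonneg (norm_nonneg _) (norm_nonneg _)), ← mul_add]
    exact mul_le_mul_of_nonneg_right (abs_norm_sub_norm_le _ _) (by positivity)
  refine h1.trans ?_
  rw [integral_const_mul, integral_add j1 j2]
  refine mul_le_mul_of_nonneg_left ?_ hM0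
  have h2 := DET_csn hF hsub hf
  have h3 := DET_csn hF hsub hg
  rw [mul_add]
  exact add_le_add h2 h3

end L2

end Pool.Agent.QX
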