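import Pool.Agent.helper71.QX.DETb

/-!
# Project QX, row DET, part 3: sections and the operators with kernels
-/

set_option autoImplicit false

open scoped MatrixGroups ContDiff Topology UpperHalfPlane
open UpperHalfPlane MeasureTheory ProbabilityTheory Filter Set Polynomial
open Pool.Agent.QU Pool.Agent.RP

namespace Pool.Agent.QX

/-- the support of `LL κ` -/
theorem DET_LL0 {κ : ℝ → ℝ} (hκ : ContDiff ℝ ∞ κ) {s : ℝ} (h0 : ∀ t, s ≤ t → κ t = 0) :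
    ∀ t, s ≤ t → LL κ t = 0 := by
  have hz : ∀ f : ℝ → ℝ, (∀ t, s < t → f t = 0) → ∀ t, s < t → deriv f t = 0 := by
    intro f hf t ht
    have h1 : f =ᶠ[𝓝 t] fun _ => 0 := by
      filter_upwards [Ioi_mem_nhds ht] with x hx
      exact hf x hx
    rw [h1.deriv_eq, deriv_const]
  have hcl : ∀ f : ℝ → ℝ, Continuous f → (∀ t, s < t → f t = 0) → ∀ t, s ≤ t → f t = 0 := by
    intro f hf h t ht
    rcases ht.lt_or_eq with h1 | h1
    · exact h t h1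
    · have hc : IsClosed {x | f x = 0} := isClosed_eq hf continuous_const
      have h2 : Ici s ⊆ {x | f x = 0} := by
        rw [← closure_Ioi s]
        exact closure_minimal (fun x hx => h x hx) hc
      exact h2 ht
  have hd1 : ContDiff ℝ ∞ (deriv κ) := (contDiff_infty_iff_deriv.1 hκ).2
  have hd2 : ContDiff ℝ ∞ (deriv (deriv κ)) := (contDiff_infty_iff_deriv.1 hd1).2
  have e1 := hcl _ hd1.continuous (hz κ fun t ht => h0 t ht.le)
  have e2 := hcl _ hd2.continuous (hz _ fun t ht => e1 t ht.le)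
  intro t ht
  unfold LL
  rw [e1 t ht, e2 t ht]
  ring

section sections

variable {Γ : Subgroup SL(2, ℝ)} {F : Set ℍ} {V : Type} [NormedAddCommGroup V] [InnerProductSpace ℂ V]

theorem DET_CB (hΓ : SurfaceGroup Γ) (hF : NiceDom Γ F) {ρ : Γ →* (V ≃ₗᵢ[ℂ] V)} {φ : ℍ → V} (h : SecC ρ φ) :
    SecB ρ φ := by
  have h1 : Inv Γ (fun z => ‖φ z‖) := ⟨h.cont.norm, fun γ z => by
    show ‖φ (γ • z)‖ = ‖φ z‖
    rw [h.eqv, LinearIsometryEquiv.norm_map]⟩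
  obtain ⟨⟨m, hm⟩, -⟩ := A_BDD Γ F _ hΓ hF h1
  refine ⟨h.cont.stronglyMeasurable, ⟨m, fun z => ?_⟩, h.eqv⟩
  have := hm z
  rwa [abs_norm] at this

theorem DET_SB {ρ : Γ →* (V ≃ₗᵢ[ℂ] V)} {φ : ℍ → V} (h : SecB ρ φ) : DET_B φ := ⟨h.meas, h.bdd⟩

theorem DET_secsub {ρ : Γ →* (V ≃ₗᵢ[ℂ] V)} {φ ψ : ℍ → V} (h : SecB ρ φ) (h' : SecB ρ ψ) :
    SecB ρ (fun z => φ z - ψ z) := by
  have hB := DET_B_sub (DET_SB h) (DET_SB h')
  exact ⟨hB.1, hB.2, fun γ z => by rw [h.eqv, h'.eqv, map_sub]⟩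

theorem DET_eig (ρ : Γ →* (V ≃ₗᵢ[ℂ] V)) {φ : ℍ → V} {μ : ℝ} (h : IsEigensection ρ μ φ) : SecC ρ φ := by
  obtain ⟨h1, h2, -⟩ := h
  refine ⟨((A_CA1 V).1 φ).1 ((A_CA1 V).2.1 φ 0 ∞ ?_ h1), h2⟩
  exact zero_le

/-- equivariance of the operator with an invariant kernel -/
theorem DET_Teqv [CompleteSpace V] {ρ : Γ →* (V ≃ₗᵢ[ℂ] V)} {S : ℍ → ℍ → ℝ} (hS : Continuous (Function.uncurry S)) {R : ℝ}
    (hR : ∀ z v, S z v ≠ 0 → dist z v ≤ R) (hinv : ∀ (g : SL(2, ℝ)) (z v : ℍ), S (g • z) (g • v) = S z v)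
    {f : ℍ → V} (hf : SecB ρ f) (γ : Γ) (v : ℍ) :
    ∫ z : ℍ, S z (γ • v) • f z = ρ γ (∫ z : ℍ, S z v • f z) := by
  have h1 := A_INV.2.2.2.1 V (γ : SL(2, ℝ)) (fun z => S z (γ • v) • f z)
  rw [← h1]
  have h2 : ∀ z : ℍ, S ((γ : SL(2, ℝ)) • z) (γ • v) • f ((γ : SL(2, ℝ)) • z) = ρ γ (S z v • f z) := by
    intro z
    have e1 : S ((γ : SL(2, ℝ)) • z) (γ • v) = S z v := hinv γ z v
    have e2 : f ((γ : SL(2, ℝ)) • z) = ρ γ (f z) := hf.eqv γ z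
    rw [e1, e2]
    exact ((ρ γ).toContinuousLinearEquiv.toContinuousLinearMap.restrictScalars ℝ).map_smul _ _ |>.symm
  simp_rw [h2]
  exact ((ρ γ).toContinuousLinearEquiv.toContinuousLinearMap).integral_comp_comm (DET_Sint hS hR (DET_SB hf) v)

end sections

end Pool.Agent.QX
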