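import Pool.Agent.helper71.QX.DETc

/-!
# Project QX, row DET, part 4: matrices; forms of operators with invariant kernels
-/

set_option autoImplicit false

open scoped MatrixGroups ContDiff Topology UpperHalfPlane
open UpperHalfPlane MeasureTheory ProbabilityTheory Filter Set Polynomial
open Pool.Agent.QU Pool.Agent.RP

namespace Pool.Agent.QX

section matrices

variable {G : Type} [Group G] {V : Type} [NormedAddCommGroup V] [InnerProductSpace ℂ V]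

theorem DET_rsmul (K : ℝ) (x : MonoidAlgebra ℂ G) : K • x = (K : ℂ) • x := by
  ext γ
  simp

theorem DET_repP {k : ℕ} (ρ : G →* (V ≃ₗᵢ[ℂ] V)) (M : Mat k G) (K : ℝ) (v : Fin k → V) (i : Fin k) :
    ∑ j, rep ρ ((M + K • (1 : Mat k G)) i j) (v j) = (∑ j, rep ρ (M i j) (v j)) + (K : ℂ) • v i := by
  have e : ∀ j, rep ρ ((M + K • (1 : Mat k G)) i j) (v j) =
      rep ρ (M i j) (v j) + if j = i then (K : ℂ) • v i else 0 := by
    intro j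
    have h1 : (M + K • (1 : Mat k G)) i j = M i j + (K : ℂ) • (1 : Mat k G) i j := by
      rw [Matrix.add_apply, Matrix.smul_apply, DET_rsmul]
    have h := fun a b => REP G V ρ a b (v j) (v j)
    rw [h1, (h (M i j) ((K : ℂ) • (1 : Mat k G) i j)).2.1, (h ((1 : Mat k G) i j) 0).2.2.1]
    rw [ContinuousLinearMap.add_apply, ContinuousLinearMap.smul_apply]
    by_cases hij : j = i
    · subst hij
      rw [if_pos rfl, Matrix.one_apply_eq, (h 0 0).2.2.2.1]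
      rfl
    · rw [if_neg hij, Matrix.one_apply_ne (fun h => hij h.symm)]
      have h0 : rep ρ (0 : MonoidAlgebra ℂ G) = 0 := by
        have := (h 0 0).2.2.1 0
        rw [zero_smul, zero_smul] at this
        exact this
      rw [h0]
      simp
  simp_rw [e]
  rw [Finset.sum_add_distrib, Finset.sum_ite_eq' Finset.univ i, if_pos (Finset.mem_univ _)]

theorem DET_rep {k : ℕ} (ρ : G →* (V ≃ₗᵢ[ℂ] V)) (M : Mat k G) (K d : ℝ) (hK : 0 ≤ K + d)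
    (h : RepB ρ (M + K • (1 : Mat k G)) (K + d)) (v : Fin k → V) :
    (∑ i, ∑ j, inner ℂ (v i) (rep ρ (M i j) (v j))).re ≤ d * ∑ i, ‖v i‖ ^ 2 := by
  set w : Fin k → V := fun i => ∑ j, rep ρ ((M + K • (1 : Mat k G)) i j) (v j) with hw
  have h1 := h v
  have e : ∀ i, inner ℂ (v i) (w i) = (∑ j, inner ℂ (v i) (rep ρ (M i j) (v j))) + (K : ℂ) * inner ℂ (v i) (v i) := by
    intro i
    rw [hw]
    simp only
    rw [DET_repP, inner_add_right, inner_smul_right, inner_sum]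
  have h2 : (∑ i, inner ℂ (v i) (w i)).re =
      (∑ i, ∑ j, inner ℂ (v i) (rep ρ (M i j) (v j))).re + K * ∑ i, ‖v i‖ ^ 2 := by
    simp_rw [e]
    rw [Finset.sum_add_distrib, Complex.add_re, ← Finset.mul_sum, Complex.re_ofReal_mul]
    congr 2
    rw [Complex.re_sum]
    refine Finset.sum_congr rfl fun i _ => ?_
    exact inner_self_eq_norm_sq (𝕜 := ℂ) (v i)
  have h3 : (∑ i, inner ℂ (v i) (w i)).re ≤ ∑ i, ‖v i‖ * ‖w i‖ := by
    refine (Complex.re_le_norm _).trans ((norm_sum_le _ _).trans (Finset.sum_le_sum fun i _ => norm_inner_le_norm _ _))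
  have h4 : (∑ i, ‖v i‖ * ‖w i‖) ^ 2 ≤ (∑ i, ‖v i‖ ^ 2) * ∑ i, ‖w i‖ ^ 2 := Finset.sum_mul_sq_le_sq_mul_sq _ _ _
  have h5 : 0 ≤ ∑ i, ‖v i‖ ^ 2 := Finset.sum_nonneg fun i _ => by positivity
  have h6 : (∑ i, ‖v i‖ * ‖w i‖) ^ 2 ≤ ((K + d) * ∑ i, ‖v i‖ ^ 2) ^ 2 := by
    refine h4.trans ?_
    calc (∑ i, ‖v i‖ ^ 2) * ∑ i, ‖w i‖ ^ 2 ≤ (∑ i, ‖v i‖ ^ 2) * ((K + d) ^ 2 * ∑ i, ‖v i‖ ^ 2) :=
          mul_le_mul_of_nonneg_left h1 h5
      _ = _ := by ring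
  have h7 : ∑ i, ‖v i‖ * ‖w i‖ ≤ (K + d) * ∑ i, ‖v i‖ ^ 2 :=
    le_of_sq_le_sq h6 (mul_nonneg hK h5)
  rw [h2] at h3
  nlinarith

end matrices

section ops

/-- operators with invariant kernels, bounded in all flat bundles -/
structure DET_Op (Γ : Subgroup SL(2, ℝ)) (F : Set ℍ) (S : ℍ → ℍ → ℝ) (R C w : ℝ) : Prop where
  cont : Continuous (Function.uncurry S)
  prop : ∀ z v, S z v ≠ 0 → dist z v ≤ R
  inv : ∀ (g : SL(2, ℝ)) (z v : ℍ), S (g • z) (g • v) = S z v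
  bd : ∀ (V : Type) [NormedAddCommGroup V] [InnerProductSpace ℂ V] [CompleteSpace V]
    (ρ : Γ →* (V ≃ₗᵢ[ℂ] V)) (f : ℍ → V), SecB ρ f → SecC ρ (fun v => ∫ z : ℍ, S z v • f z) ∧
      w * DET_N F (fun v => ∫ z : ℍ, S z v • f z) ≤ C * DET_N F f

variable {Γ : Subgroup SL(2, ℝ)} {F : Set ℍ} {V : Type} [NormedAddCommGroup V] [InnerProductSpace ℂ V]
  [CompleteSpace V]

theorem DET_opq (hΓ : SurfaceGroup Γ) (hF : NiceDom Γ F) {S : ℍ → ℍ → ℝ} {R C w : ℝ} (hS : DET_Op Γ F S R C w)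
    (hC : 0 ≤ C) (hw : 0 ≤ w) {H : ℍ → ℝ} (hH : Inv Γ H) {M : ℝ} (hM : ∀ z, |H z| ≤ M)
    {ρ : Γ →* (V ≃ₗᵢ[ℂ] V)} {f g : ℍ → V} (hf : SecB ρ f) (hg : SecB ρ g) :
    |w ^ 2 * (∫ v in F, H v * ‖∫ z : ℍ, S z v • f z‖ ^ 2) - w ^ 2 * ∫ v in F, H v * ‖∫ z : ℍ, S z v • g z‖ ^ 2| ≤
      M * C ^ 2 * (DET_N F (fun z => f z - g z) * (DET_N F f + DET_N F g)) := by
  have hvol : volume F < ⊤ := (A_DOB Γ F hΓ hF).2.2.2.1
  obtain ⟨a1, b1⟩ := hS.bd V ρ f hf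
  obtain ⟨a2, b2⟩ := hS.bd V ρ g hg
  obtain ⟨a3, b3⟩ := hS.bd V ρ _ (DET_secsub hf hg)
  have hM0 : 0 ≤ M := (abs_nonneg _).trans (hM UpperHalfPlane.I)
  have h1 := DET_diff hvol hH.1.stronglyMeasurable hM (DET_SB (DET_CB hΓ hF a1)) (DET_SB (DET_CB hΓ hF a2))
  have e : (fun v => (∫ z : ℍ, S z v • f z) - ∫ z : ℍ, S z v • g z) = fun v => ∫ z : ℍ, S z v • (f z - g z) := by
    funext v
    exact (DET_Tsub hS.cont hS.prop (DET_SB hf) (DET_SB hg) v).symm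
  rw [e] at h1
  rw [← mul_sub, abs_mul, abs_of_nonneg (by positivity : (0 : ℝ) ≤ w ^ 2)]
  have n0 := DET_N_nonneg (F := F) (fun v => ∫ z : ℍ, S z v • (f z - g z))
  have n1 := DET_N_nonneg (F := F) (fun v => ∫ z : ℍ, S z v • f z)
  have n2 := DET_N_nonneg (F := F) (fun v => ∫ z : ℍ, S z v • g z)
  refine (mul_le_mul_of_nonneg_left h1 (by positivity : (0 : ℝ) ≤ w ^ 2)).trans ?_
  have h2 : (w * DET_N F (fun v => ∫ z : ℍ, S z v • (f z - g z))) *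
      (w * DET_N F (fun v => ∫ z : ℍ, S z v • f z) + w * DET_N F (fun v => ∫ z : ℍ, S z v • g z)) ≤
      (C * DET_N F (fun z => f z - g z)) * (C * DET_N F f + C * DET_N F g) :=
    mul_le_mul b3 (add_le_add b1 b2) (by positivity) (mul_nonneg hC (DET_N_nonneg _))
  calc _ = M * ((w * DET_N F (fun v => ∫ z : ℍ, S z v • (f z - g z))) *
      (w * DET_N F (fun v => ∫ z : ℍ, S z v • f z) + w * DET_N F (fun v => ∫ z : ℍ, S z v • g z))) := by ring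
    _ ≤ M * ((C * DET_N F (fun z => f z - g z)) * (C * DET_N F f + C * DET_N F g)) :=
      mul_le_mul_of_nonneg_left h2 hM0
    _ = _ := by ring

theorem DET_zero {ρ : Γ →* (V ≃ₗᵢ[ℂ] V)} : SecB ρ (fun _ : ℍ => (0 : V)) :=
  ⟨stronglyMeasurable_const, ⟨0, fun z => by simp⟩, fun γ z => by simp⟩

/-- the two operators, and the form of the kernel `a` -/
theorem DET_core (hAKR : AKR_stmt) (hΓ : SurfaceGroup Γ) (hF : NiceDom Γ F) {S₁ S₂ : ℍ → ℍ → ℝ} {R C w c C' : ℝ}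
    (hS₁ : DET_Op Γ F S₁ R C 1) (hS₂ : DET_Op Γ F S₂ R C w) (hC : 0 ≤ C) (hw : 0 ≤ w) (hC' : 0 ≤ C')
    (hc : c = C' * w ^ 2) {h : ℍ → ℝ} (hh : Inv Γ h) {m δ : ℝ} (hm : ∀ z, |h z| ≤ m) (hδ : 0 ≤ δ) (hδ1 : δ ≤ 1)
    {ρ : Γ →* (V ≃ₗᵢ[ℂ] V)} :
    (∀ f : ℍ → V, SecB ρ f → DET_q F (fun z w => aS (fun v => h v - δ) S₁ z w - c * aS (fun _ => 1) S₂ z w) f =
      (∫ v in F, (h v - δ) * ‖∫ z : ℍ, S₁ z v • f z‖ ^ 2) - c * DET_N F (fun v => ∫ z : ℍ, S₂ z v • f z) ^ 2) ∧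
    ∀ f g : ℍ → V, SecB ρ f → SecB ρ g →
      |DET_q F (fun z w => aS (fun v => h v - δ) S₁ z w - c * aS (fun _ => 1) S₂ z w) f -
        DET_q F (fun z w => aS (fun v => h v - δ) S₁ z w - c * aS (fun _ => 1) S₂ z w) g| ≤
        ((m + 1) * C ^ 2 + C' * C ^ 2) * (DET_N F (fun z => f z - g z) * (DET_N F f + DET_N F g)) := by
  have hh' : Inv Γ (fun v => h v - δ) := ⟨hh.1.sub continuous_const, fun γ z => by simp only [hh.2 γ z]⟩
  have h1' : Inv Γ (fun _ => (1 : ℝ)) := ⟨continuous_const, fun γ z => rfl⟩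
  obtain ⟨K, hK, hFK⟩ := hF.rel
  obtain ⟨p1, r1, q1, -⟩ := hAKR Γ F _ S₁ R hΓ hF hh' hS₁.cont (fun γ => hS₁.inv γ) hS₁.prop
  obtain ⟨p2, r2, q2, -⟩ := hAKR Γ F _ S₂ R hΓ hF h1' hS₂.cont (fun γ => hS₂.inv γ) hS₂.prop
  have hq : ∀ f : ℍ → V, SecB ρ f →
      DET_q F (fun z w => aS (fun v => h v - δ) S₁ z w - c * aS (fun _ => 1) S₂ z w) f =
      (∫ v in F, (h v - δ) * ‖∫ z : ℍ, S₁ z v • f z‖ ^ 2) - c * ∫ v in F, 1 * ‖∫ z : ℍ, S₂ z v • f z‖ ^ 2 := by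
    intro f hf
    rw [DET_qsub p1.cont p2.cont r1 r2 hK hFK hF.meas (DET_SB hf) c]
    unfold DET_q
    rw [q1 V ρ f hf, q2 V ρ f hf]
  refine ⟨fun f hf => ?_, fun f g hf hg => ?_⟩
  · rw [hq f hf, DET_N_sq]
    simp only [one_mul]
  · rw [hq f hf, hq g hg]
    have hM : ∀ z, |h z - δ| ≤ m + 1 := by
      intro z
      have := hm z
      rw [abs_le] at this ⊢
      constructor <;> linarith [this.1, this.2]
    have e1 := DET_opq hΓ hF hS₁ hC zero_le_one hh' hM hf hg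
    have e2 := DET_opq hΓ hF hS₂ hC hw h1' (M := 1) (fun z => by simp) hf hg
    rw [one_pow, one_mul, one_mul] at e1
    have e3 := mul_le_mul_of_nonneg_left e2 hC'
    rw [← abs_of_nonneg hC', ← abs_mul] at e3
    rw [abs_of_nonneg hC'] at e3
    rw [hc]
    set I1 := ∫ v in F, (h v - δ) * ‖∫ z : ℍ, S₁ z v • f z‖ ^ 2
    set I2 := ∫ v in F, (h v - δ) * ‖∫ z : ℍ, S₁ z v • g z‖ ^ 2
    set J1 := ∫ v in F, 1 * ‖∫ z : ℍ, S₂ z v • f z‖ ^ 2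
    set J2 := ∫ v in F, 1 * ‖∫ z : ℍ, S₂ z v • g z‖ ^ 2
    set X := DET_N F (fun z => f z - g z) * (DET_N F f + DET_N F g)
    have e4 : I1 - C' * w ^ 2 * J1 - (I2 - C' * w ^ 2 * J2) = (I1 - I2) - C' * (w ^ 2 * J1 - w ^ 2 * J2) := by ring
    rw [e4]
    refine (abs_sub _ _).trans ?_
    calc _ ≤ (m + 1) * C ^ 2 * X + C' * (1 * C ^ 2 * X) := add_le_add e1 e3
      _ = _ := by ring

end ops

end Pool.Agent.QX
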